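import Pool.Agent.R598.TY.Top

/-!
# Subsets of `ω` and real numbers in a transitive model of ZF
-/

set_option autoImplicit false

namespace Pool.Agent.R598.TY

open Pool.Agent.W868 Pool.Agent.R598.PM
open ZFSet (pair)

/-- The set `{(q, t) : q < ∑ m ∈ t, 3 ^ (- m)}`, coded. -/
noncomputable def Rel : ZFSet.{0} :=
  ZFSet.sep (fun w => ∃ (q : ℚ) (t : Finset ℕ), (q : ℝ) < ∑ m ∈ t, (1 / 3 : ℝ) ^ m ∧
    w = pair (nat (Encodable.encode q)) (nat (Encodable.encode t)))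
    (ZFSet.prod ZFSet.omega ZFSet.omega)

/-- The set `{(m, t) : m ∈ t}`, coded. -/
noncomputable def Mem : ZFSet.{0} :=
  ZFSet.sep (fun w => ∃ (m : ℕ) (t : Finset ℕ), m ∈ t ∧
    w = pair (nat m) (nat (Encodable.encode t))) (ZFSet.prod ZFSet.omega ZFSet.omega)

theorem nat_om (n : ℕ) : nat n ∈ ZFSet.omega := mem_omega_iff.2 ⟨n, rfl⟩

theorem mem_Rel {k t : ZFSet.{0}} : pair k t ∈ Rel ↔ ∃ (q : ℚ) (s : Finset ℕ),
    (q : ℝ) < ∑ m ∈ s, (1 / 3 : ℝ) ^ m ∧ k = nat (Encodable.encode q) ∧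
      t = nat (Encodable.encode s) := by
  rw [Rel, ZFSet.mem_sep]
  constructor
  · rintro ⟨-, q, s, h, h1⟩
    obtain ⟨rfl, rfl⟩ := ZFSet.pair_inj.1 h1
    exact ⟨q, s, h, rfl, rfl⟩
  · rintro ⟨q, s, h, rfl, rfl⟩
    exact ⟨ZFSet.pair_mem_prod.2 ⟨nat_om _, nat_om _⟩, q, s, h, rfl⟩

theorem mem_Mem {m : ℕ} {t : Finset ℕ} :
    pair (nat m) (nat (Encodable.encode t)) ∈ Mem ↔ m ∈ t := by
  rw [Mem, ZFSet.mem_sep]
  constructor
  · rintro ⟨-, m', t', h, h1⟩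
    obtain ⟨h2, h3⟩ := ZFSet.pair_inj.1 h1
    rw [nat_injective h2, Encodable.encode_injective (nat_injective h3)]
    exact h
  · exact fun h => ⟨ZFSet.pair_mem_prod.2 ⟨nat_om _, nat_om _⟩, m, t, h, rfl⟩

open Classical in
/-- The real number with the code `c`. -/
noncomputable def cf (c : ZFSet.{0}) : ℝ :=
  Cardinal.cantorFunction (1 / 3) fun m => decide (nat m ∈ c)

theorem cf_inj {c c' : ZFSet.{0}} (hc : c ⊆ ZFSet.omega) (hc' : c' ⊆ ZFSet.omega)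
    (h : cf c = cf c') : c = c' := by
  have h1 := Cardinal.cantorFunction_injective (c := 1 / 3) (by norm_num) (by norm_num) h
  have h2 : ∀ m, nat m ∈ c ↔ nat m ∈ c' := by
    intro m
    have h3 := congrFun h1 m
    simpa using h3
  ext z
  constructor
  · intro hz
    obtain ⟨m, rfl⟩ := mem_omega_iff.1 (hc hz)
    exact (h2 m).1 hz
  · intro hz
    obtain ⟨m, rfl⟩ := mem_omega_iff.1 (hc' hz)
    exact (h2 m).2 hz

theorem lt_cf {c : ZFSet.{0}} {r : ℝ} :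
    r < cf c ↔ ∃ t : Finset ℕ, r < ∑ m ∈ t, (1 / 3 : ℝ) ^ m ∧ ∀ m ∈ t, nat m ∈ c := by
  classical
  have hs : Summable (Cardinal.cantorFunctionAux (1 / 3) fun m => decide (nat m ∈ c)) :=
    Cardinal.summable_cantor_function _ (by norm_num) (by norm_num)
  constructor
  · intro h
    have h0 : Filter.Tendsto (fun s : Finset ℕ => ∑ b ∈ s, Cardinal.cantorFunctionAux (1 / 3)
        (fun m => decide (nat m ∈ c)) b) Filter.atTop (nhds (cf c)) := hs.hasSum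
    obtain ⟨s, h1⟩ := (h0.eventually (lt_mem_nhds h)).exists
    refine ⟨s.filter fun m => nat m ∈ c, ?_, fun m hm => (Finset.mem_filter.1 hm).2⟩
    rw [Finset.sum_filter]
    refine h1.trans_le (le_of_eq (Finset.sum_congr rfl fun m _ => ?_))
    by_cases hm : nat m ∈ c
    · rw [if_pos hm, Cardinal.cantorFunctionAux_true]
      simpa using hm
    · rw [if_neg hm, Cardinal.cantorFunctionAux_false]
      simpa using hm
  · rintro ⟨t, h1, h2⟩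
    refine h1.trans_le ?_
    have h3 := hs.sum_le_tsum t fun m _ => Cardinal.cantorFunctionAux_nonneg (by norm_num)
    refine le_trans (le_of_eq ?_) h3
    refine Finset.sum_congr rfl fun m hm => ?_
    rw [Cardinal.cantorFunctionAux_true]
    simpa using h2 m hm

theorem mem_real_cf {c k : ZFSet.{0}} : k ∈ real (cf c) ↔
    k ∈ ZFSet.omega ∧ ∃ t ∈ ZFSet.omega, pair k t ∈ Rel ∧
      ∀ m ∈ ZFSet.omega, pair m t ∈ Mem → m ∈ c := by
  rw [mem_real]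
  constructor
  · rintro ⟨q, hq, rfl⟩
    obtain ⟨t, h1, h2⟩ := lt_cf.1 hq
    refine ⟨nat_om _, _, nat_om _, mem_Rel.2 ⟨q, t, h1, rfl, rfl⟩, fun m hm h => ?_⟩
    obtain ⟨m, rfl⟩ := mem_omega_iff.1 hm
    exact h2 m (mem_Mem.1 h)
  · rintro ⟨-, t, -, h1, h2⟩
    obtain ⟨q, s, h, rfl, rfl⟩ := mem_Rel.1 h1
    exact ⟨q, lt_cf.2 ⟨s, h, fun m hm => h2 _ (nat_om m) (mem_Mem.2 hm)⟩, rfl⟩

/-- From the subsets of `ω` to the real numbers. -/
theorem to_real {M : Set ZFSet.{0}} (hM : IsZF M) (hRel : Rel ∈ M) (hMem : Mem ∈ M)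
    {X F : ZFSet.{0}} {ρ : ZFSet.{0} → ZFSet.{0} → ℝ} (hX : X ∈ M) (hF : F ∈ M)
    (hF1 : ∀ c y, pair c y ∈ F → c ⊆ ZFSet.omega ∧ y ∈ X)
    (hF2 : ∀ c y y', pair c y ∈ F → pair c y' ∈ F → y = y')
    (hF3 : ∀ x ∈ X, ∀ ε > 0, ∃ c y, pair c y ∈ F ∧ ρ x y < ε) :
    ∃ F' ∈ M, (∀ c y, pair c y ∈ F' → (∃ r, c = real r) ∧ y ∈ X) ∧
      (∀ c y y', pair c y ∈ F' → pair c y' ∈ F' → y = y') ∧
      ∀ x ∈ X, ∀ ε > 0, ∃ c y, pair c y ∈ F' ∧ ρ x y < ε := by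
  obtain ⟨Pw, hPw, hPw'⟩ := hM.power _ hM.infinity
  have hB := hM.base
  have hom := hM.infinity
  have hF' := hM.sep_mem (Q := fun w => ∃ z ∈ Pw, ∃ y ∈ X, w = pair z y ∧ ∃ c ∈ Pw, pair c y ∈ F ∧
    ∀ k ∈ ZFSet.omega, (k ∈ z ↔ ∃ t ∈ ZFSet.omega, pair k t ∈ Rel ∧
      ∀ m ∈ ZFSet.omega, pair m t ∈ Mem → m ∈ c)) (by
    (repeat' first
      | assumption
      | exact DfnF.proj _
      | exact DfnF.const (by assumption)
      | apply Dfn.not | apply Dfn.and | apply Dfn.or | apply Dfn.imp | apply Dfn.iff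
      | apply hB.bex | apply hB.ball
      | apply Dfn.eq | apply Dfn.mem | apply hB.pair')) (hM.prod_mem hPw hX)
  have hcfM : ∀ c ∈ M, real (cf c) ∈ M := by
    intro c hc
    have h1 := hM.sep_mem (Q := fun k => ∃ t ∈ ZFSet.omega, pair k t ∈ Rel ∧
      ∀ m ∈ ZFSet.omega, pair m t ∈ Mem → m ∈ c) (by
      (repeat' first
        | assumption
        | exact DfnF.proj _
        | exact DfnF.const (by assumption)
        | apply Dfn.not | apply Dfn.and | apply Dfn.or | apply Dfn.imp | apply Dfn.iff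
        | apply hB.bex | apply hB.ball
        | apply Dfn.eq | apply Dfn.mem | apply hB.pair')) hom
    have h2 : ZFSet.sep (fun k => ∃ t ∈ ZFSet.omega, pair k t ∈ Rel ∧
        ∀ m ∈ ZFSet.omega, pair m t ∈ Mem → m ∈ c) ZFSet.omega = real (cf c) := by
      ext k
      rw [ZFSet.mem_sep, mem_real_cf]
    rwa [h2] at h1
  have hmem : ∀ z y, pair z y ∈ ZFSet.sep (fun w => ∃ z ∈ Pw, ∃ y ∈ X, w = pair z y ∧
      ∃ c ∈ Pw, pair c y ∈ F ∧ ∀ k ∈ ZFSet.omega, (k ∈ z ↔ ∃ t ∈ ZFSet.omega, pair k t ∈ Rel ∧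
      ∀ m ∈ ZFSet.omega, pair m t ∈ Mem → m ∈ c)) (ZFSet.prod Pw X) ↔
      ∃ c, pair c y ∈ F ∧ z = real (cf c) := by
    intro z y
    rw [ZFSet.mem_sep]
    constructor
    · rintro ⟨-, z', hz', y', -, h1, c, -, h2, h3⟩
      obtain ⟨rfl, rfl⟩ := ZFSet.pair_inj.1 h1
      refine ⟨c, h2, ?_⟩
      ext k
      rw [mem_real_cf]
      constructor
      · intro hk
        have hk' := ((hPw' z).1 hz').2 hk
        exact ⟨hk', (h3 k hk').1 hk⟩
      · rintro ⟨hk, h4⟩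
        exact (h3 k hk).2 h4
    · rintro ⟨c, h1, rfl⟩
      obtain ⟨h2, h3⟩ := hF1 c y h1
      have hc : c ∈ M := (hM.of_pair_mem (hM.trans _ hF _ h1)).1
      have hz : real (cf c) ∈ Pw := (hPw' _).2 ⟨hcfM c hc, real_sub _⟩
      exact ⟨ZFSet.pair_mem_prod.2 ⟨hz, h3⟩, _, hz, y, h3, rfl, c, (hPw' c).2 ⟨hc, h2⟩, h1,
        fun k hk => ⟨fun h => (mem_real_cf.1 h).2, fun h => mem_real_cf.2 ⟨hk, h⟩⟩⟩
  refine ⟨_, hF', fun z y h => ?_, fun z y y' h h' => ?_, fun x hx ε hε => ?_⟩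
  · obtain ⟨c, h1, h2⟩ := (hmem z y).1 h
    exact ⟨⟨_, h2⟩, (hF1 c y h1).2⟩
  · obtain ⟨c, h1, h2⟩ := (hmem z y).1 h
    obtain ⟨c', h1', h2'⟩ := (hmem z y').1 h'
    have h3 := cf_inj (hF1 c y h1).1 (hF1 c' y' h1').1 (real_inj (h2.symm.trans h2'))
    rw [← h3] at h1'
    exact hF2 c y y' h1 h1'
  · obtain ⟨c, y, h1, h2⟩ := hF3 x hx ε hε
    exact ⟨_, y, (hmem _ y).2 ⟨c, h1, rfl⟩, h2⟩

end Pool.Agent.R598.TY
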