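import Pool.Agent.R598.PM.TopDefs

/-!
# Compact metrizable spaces in a transitive model of ZF: definitions
-/

set_option autoImplicit false

namespace Pool.Agent.R598.TY

open Pool.Agent.W868 Pool.Agent.R598.PM
open ZFSet (pair)

/-- The real number `r` as a set: the Dedekind cut of `r`, where the rational numbers are coded by
natural numbers. -/
noncomputable def real (r : ℝ) : ZFSet.{0} :=
  ZFSet.sep (fun z => ∃ q : ℚ, (q : ℝ) < r ∧ z = nat (Encodable.encode q)) ZFSet.omega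

/-- In the model `M`, the space `(X, τ)` is metrizable: some function `d ∈ M` from the pairs of
points to the real numbers is a metric that gives the topology. -/
def IsMetrizable (M : Set ZFSet.{0}) (X τ : ZFSet.{0}) : Prop :=
  ∃ d ∈ M, ∃ ρ : ZFSet.{0} → ZFSet.{0} → ℝ,
    (∀ x ∈ X, ∀ y ∈ X, ∀ z, pair (pair x y) z ∈ d ↔ z = real (ρ x y)) ∧
    (∀ x ∈ X, ∀ y ∈ X, ρ x y = 0 ↔ x = y) ∧ (∀ x ∈ X, ∀ y ∈ X, ρ x y = ρ y x) ∧
    (∀ x ∈ X, ∀ y ∈ X, ∀ z ∈ X, ρ x z ≤ ρ x y + ρ y z) ∧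
    ∀ O ∈ M, O ⊆ X → (O ∈ τ ↔ ∀ x ∈ O, ∃ ε > 0, ∀ y ∈ X, ρ x y < ε → y ∈ O)

/-- In the model `M`, the space `(X, τ)` is embeddable in the Tychonoff cube `[0,1]^ℝ`: the
function `e ∈ M` from the product of `X` and the set of the real numbers to the unit interval gives
for each point `x` the point `φ x` of the cube, the function `φ` is injective, and the topology of
`X` is the one given by the product topology. -/
def EmbTych (M : Set ZFSet.{0}) (X τ : ZFSet.{0}) : Prop :=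
  ∃ e ∈ M, ∃ φ : ZFSet.{0} → ℝ → ℝ,
    (∀ x ∈ X, ∀ r, real r ∈ M →
      0 ≤ φ x r ∧ φ x r ≤ 1 ∧ ∀ z, pair (pair x (real r)) z ∈ e ↔ z = real (φ x r)) ∧
    (∀ x ∈ X, ∀ y ∈ X, (∀ r, real r ∈ M → φ x r = φ y r) → x = y) ∧
    ∀ O ∈ M, O ⊆ X → (O ∈ τ ↔ ∀ x ∈ O, ∃ s : Finset ℝ, (∀ r ∈ s, real r ∈ M) ∧
      ∃ ε > 0, ∀ y ∈ X, (∀ r ∈ s, |φ y r - φ x r| < ε) → y ∈ O)

/-- In the model `M`, every compact metrizable space is embeddable in the Tychonoff cube. -/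
def MCEmb (M : Set ZFSet.{0}) : Prop :=
  ∀ X ∈ M, ∀ τ ∈ M, IsTop M X τ → IsComp M X τ → IsMetrizable M X τ → EmbTych M X τ

/-- In the model `M`, every denumerable family of non-empty finite sets has a choice function. -/
def CACfin (M : Set ZFSet.{0}) : Prop :=
  ∀ Y ∈ M, (∃ f ∈ M, IsBij Y ZFSet.omega f) → (∀ y ∈ Y, y ≠ ∅ ∧ FinIn M y) →
    ∃ c ∈ M, ∀ y ∈ Y, ∃ a ∈ y, ∀ z, pair y z ∈ c ↔ z = a

end Pool.Agent.R598.TY
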