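import Pool.Agent.R598.TY.Name
import Pool.Agent.R598.TY.Real

/-!
# A model of ZF in which every compact metrizable space is embeddable in the Tychonoff cube, and
countable choice for finite sets fails
-/

set_option autoImplicit false

namespace Pool.Agent.R598.TY

open Pool.Agent.W868 Pool.Agent.W868.PName Pool.Agent.R598.SY Pool.Agent.R598.PM
open ZFSet (pair)

/-- Every model given by finite supports satisfies the embedding statement. -/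
theorem mcEmb {I : Type} [Countable I] {T : Subgroup (Equiv.Perm I)} {π : Pkg (Cd I)}
    (g : Gt T π) (hM : IsZF ((sys (DD T)).Ms π)) (hR : ∀ q : ℚ, real q ∈ (sys (DD T)).Ms π)
    (hRel : Rel ∈ (sys (DD T)).Ms π) (hMem : Mem ∈ (sys (DD T)).Ms π) :
    MCEmb ((sys (DD T)).Ms π) := by
  intro X hX τ hτ _ hComp hMet
  obtain ⟨d, hd, ρ, hρ, hρ0, hρs, hρt, hρT⟩ := hMet
  obtain ⟨F, hF, hF1, hF2, hF3⟩ := exists_dense g hM hX hd hρ hρs hρt fun ε hε =>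
    tot_bdd hM hR hX hτ hd hρ hρ0 hρt hρT hComp hε
  obtain ⟨F', hF', h1, h2, h3⟩ := to_real hM hRel hMem hX hF hF1 hF2 hF3
  exact emb_of_dense hM hR hX hd hρ hρ0 hρs hρt hρT hF' h1 h2 h3

/-! ### Pairs of sets of Cohen reals -/

/-- The permutations that keep the first coordinate. -/
def Tp : Subgroup (Equiv.Perm (ℕ × Bool)) where
  carrier := {τ | ∀ x, (τ x).1 = x.1}
  mul_mem' := by
    intro τ σ h h' x
    change (τ (σ x)).1 = x.1
    rw [h, h']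
  one_mem' := fun _ => rfl
  inv_mem' := by
    intro τ h x
    have h1 := h (τ.symm x)
    rw [Equiv.apply_symm_apply] at h1
    exact h1.symm

/-- The index set of the `n`-th pair. -/
def Pr (n : ℕ) : Set (ℕ × Bool) := {x | x.1 = n}

theorem Pr_image {τ : Equiv.Perm (ℕ × Bool)} (h : τ ∈ Tp) (n : ℕ) : τ '' Pr n = Pr n := by
  ext x
  constructor
  · rintro ⟨y, hy, rfl⟩
    exact (h y).trans hy
  · intro hx
    exact ⟨τ.symm x, ((Tp.inv_mem h) x).trans hx, Equiv.apply_symm_apply τ x⟩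

/-- The name for the set of the pairs. -/
noncomputable def YN : PName (Cd (ℕ × Bool)) := PName.mk ℕ (fun n => sN (Pr n)) (fun _ => ⊤)

/-- The name for the enumeration of the pairs. -/
noncomputable def eN : PName (Cd (ℕ × Bool)) :=
  PName.mk ℕ (fun n => opN (sN (Pr n)) (check (nat n))) (fun _ => ⊤)

theorem el_YN {z : PName (Cd (ℕ × Bool))} {c : Cd (ℕ × Bool)} :
    El YN z c ↔ ∃ n, z = sN (Pr n) ∧ c = ⊤ := by
  rw [YN, el_mk]
  constructor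
  · rintro ⟨n, rfl, rfl⟩
    exact ⟨n, rfl, rfl⟩
  · rintro ⟨n, rfl, rfl⟩
    exact ⟨n, rfl, rfl⟩

theorem el_eN {z : PName (Cd (ℕ × Bool))} {c : Cd (ℕ × Bool)} :
    El eN z c ↔ ∃ n, z = opN (sN (Pr n)) (check (nat n)) ∧ c = ⊤ := by
  rw [eN, el_mk]
  constructor
  · rintro ⟨n, rfl, rfl⟩
    exact ⟨n, rfl, rfl⟩
  · rintro ⟨n, rfl, rfl⟩
    exact ⟨n, rfl, rfl⟩

theorem act_Pr (ρ : (sys (DD Tp)).G) (n : ℕ) (p : Cd (ℕ × Bool)) :
    Feq (act ((sys (DD Tp)).ac ρ) (sN (Pr n))) (sN (Pr n)) p := by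
  obtain ⟨τ, hτ, hρ⟩ := ρ.2
  have h1 := act_sN hρ (Pr n) p
  rwa [Pr_image hτ] at h1

theorem hs_Pr (n : ℕ) : (sys (DD Tp)).HS (sN (Pr n)) := by
  refine hs_sN (D := DD Tp) (E := ∅) (H := ⊤) rfl ?_
  intro τ hτ _ _ x hx
  exact ((hτ : τ ∈ Tp) x).trans hx

theorem hs_YN : (sys (DD Tp)).HS YN := by
  refine (sys (DD Tp)).hs_iff.2 ⟨⟨_, ⟨∅, ⊤, rfl, rfl⟩, fun ρ _ p => ?_⟩, fun z c hz => ?_⟩
  · rw [feq_iff']
    constructor
    · intro a c ha q hq hqc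
      obtain ⟨z, d, hz, rfl, rfl⟩ := el_act.1 ha
      obtain ⟨n, rfl, rfl⟩ := el_YN.1 hz
      exact ⟨q, le_rfl, _, ⊤, el_YN.2 ⟨n, rfl, rfl⟩, le_top, act_Pr ρ n q⟩
    · intro a c ha q hq hqc
      obtain ⟨n, rfl, rfl⟩ := el_YN.1 ha
      exact ⟨q, le_rfl, _, ⊤, el_act.2 ⟨_, ⊤, el_YN.2 ⟨n, rfl, rfl⟩,
        rfl, ((sys (DD Tp)).top ρ).symm⟩, le_top, act_Pr ρ n q⟩
  · obtain ⟨n, rfl, rfl⟩ := el_YN.1 hz
    exact hs_Pr n

theorem hs_eN : (sys (DD Tp)).HS eN := by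
  have key : ∀ (ρ : (sys (DD Tp)).G) (n : ℕ) (q : Cd (ℕ × Bool)),
      Feq (act ((sys (DD Tp)).ac ρ) (opN (sN (Pr n)) (check (nat n))))
        (opN (sN (Pr n)) (check (nat n))) q := by
    intro ρ n q
    rw [act_opN ((sys (DD Tp)).top ρ), act_check ((sys (DD Tp)).top ρ)]
    exact feq_opN (act_Pr ρ n q) (Feq.refl _ _)
  refine (sys (DD Tp)).hs_iff.2 ⟨⟨_, ⟨∅, ⊤, rfl, rfl⟩, fun ρ _ p => ?_⟩, fun z c hz => ?_⟩
  · rw [feq_iff']
    constructor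
    · intro a c ha q hq hqc
      obtain ⟨z, d, hz, rfl, rfl⟩ := el_act.1 ha
      obtain ⟨n, rfl, rfl⟩ := el_eN.1 hz
      exact ⟨q, le_rfl, _, ⊤, el_eN.2 ⟨n, rfl, rfl⟩, le_top, key ρ n q⟩
    · intro a c ha q hq hqc
      obtain ⟨n, rfl, rfl⟩ := el_eN.1 ha
      exact ⟨q, le_rfl, _, ⊤, el_act.2 ⟨_, ⊤, el_eN.2 ⟨n, rfl, rfl⟩,
        rfl, ((sys (DD Tp)).top ρ).symm⟩, le_top, key ρ n q⟩
  · obtain ⟨n, rfl, rfl⟩ := el_eN.1 hz
    exact (sys (DD Tp)).hs_opN (hs_Pr n) ((sys (DD Tp)).hs_check _)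

theorem not_cacFin {π : Pkg (Cd (ℕ × Bool))} (hM : IsZF ((sys (DD Tp)).Ms π))
    (hb : ∀ i, bN i ∈ π.N) (hs : ∀ n, sN (Pr n) ∈ π.N) (hY : YN ∈ π.N) (he : eN ∈ π.N) :
    ¬ CACfin ((sys (DD Tp)).Ms π) := by
  classical
  intro h
  have hmY : ∀ z, z ∈ π.val YN ↔ ∃ n, z = ev π (Pr n) := by
    intro z
    rw [π.mem_val]
    constructor
    · rintro ⟨y, hy, c, hc, -, rfl⟩
      obtain ⟨n, rfl, rfl⟩ := el_YN.1 hc
      exact ⟨n, rfl⟩
    · rintro ⟨n, rfl⟩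
      exact ⟨sN (Pr n), hs n, ⊤, el_YN.2 ⟨n, rfl, rfl⟩, ⟨0, le_top⟩, rfl⟩
  have hme : ∀ z, z ∈ π.val eN ↔ ∃ n, z = pair (ev π (Pr n)) (nat n) := by
    intro z
    have h1 : ∀ n, π.val (opN (sN (Pr n)) (check (nat n))) = pair (ev π (Pr n)) (nat n) := by
      intro n
      have h2 : π.val (check (nat n)) = nat n := π.hat_nat n
      rw [π.val_opN (hs n) (π.nat_Z n), h2]
      rfl
    rw [π.mem_val]
    constructor
    · rintro ⟨y, hy, c, hc, -, rfl⟩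
      obtain ⟨n, rfl, rfl⟩ := el_eN.1 hc
      exact ⟨n, h1 n⟩
    · rintro ⟨n, rfl⟩
      exact ⟨_, π.opN_mem (hs n) (π.nat_Z n), ⊤, el_eN.2 ⟨n, rfl, rfl⟩, ⟨0, le_top⟩, h1 n⟩
  have hinj : ∀ n m, ev π (Pr n) = ev π (Pr m) → n = m := by
    intro n m hnm
    have h1 : ((n, true) : ℕ × Bool) ∈ Pr n := rfl
    rw [W.ev_inj hb hnm] at h1
    exact h1
  have hfin : ∀ n, (Pr n).Finite := by
    intro n
    refine Set.Finite.subset (Set.toFinite {(n, true), (n, false)}) ?_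
    rintro ⟨m, b⟩ hm
    have hm' : m = n := hm
    subst hm'
    cases b
    · exact Or.inr rfl
    · exact Or.inl rfl
  have hbij : IsBij (π.val YN) ZFSet.omega (π.val eN) := by
    refine ⟨⟨⟨fun z hz => ?_, fun y hy => ?_⟩, fun a b c ha hb => ?_⟩, fun b hb => ?_⟩
    · obtain ⟨n, rfl⟩ := (hme z).1 hz
      exact ZFSet.pair_mem_prod.2 ⟨(hmY _).2 ⟨n, rfl⟩, mem_omega_iff.2 ⟨n, rfl⟩⟩
    · obtain ⟨n, rfl⟩ := (hmY y).1 hy
      refine ⟨nat n, (hme _).2 ⟨n, rfl⟩, fun w hw => ?_⟩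
      obtain ⟨m, hm⟩ := (hme _).1 hw
      obtain ⟨h1, rfl⟩ := ZFSet.pair_inj.1 hm
      rw [hinj _ _ h1]
    · obtain ⟨n, hn⟩ := (hme _).1 ha
      obtain ⟨m, hm⟩ := (hme _).1 hb
      obtain ⟨rfl, h1⟩ := ZFSet.pair_inj.1 hn
      obtain ⟨rfl, h2⟩ := ZFSet.pair_inj.1 hm
      rw [nat_injective (h1.symm.trans h2)]
    · obtain ⟨n, rfl⟩ := mem_omega_iff.1 hb
      exact ⟨_, (hmY _).2 ⟨n, rfl⟩, (hme _).2 ⟨n, rfl⟩⟩
  have hne : ∀ y ∈ π.val YN, y ≠ ∅ ∧ FinIn ((sys (DD Tp)).Ms π) y := by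
    intro y hy
    obtain ⟨n, rfl⟩ := (hmY y).1 hy
    refine ⟨fun h0 => ?_, (W.finIn_ev hb hM).2 (hfin n)⟩
    have h1 : π.val (bN ((n, true) : ℕ × Bool)) ∈ ev π (Pr n) := (W.bN_mem_ev hb).2 rfl
    rw [h0] at h1
    exact ZFSet.notMem_empty _ h1
  obtain ⟨c, hc, hc'⟩ := h (π.val YN) ⟨_, ⟨hY, hs_YN⟩, rfl⟩
    ⟨π.val eN, ⟨_, ⟨he, hs_eN⟩, rfl⟩, hbij⟩ hne
  -- the choice function
  obtain ⟨E, H, hH, hE⟩ := W.exists_rel hb hc
  obtain ⟨n, hn⟩ : ∃ n, ∀ b, ((n, b) : ℕ × Bool) ∉ E := by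
    obtain ⟨n, hn⟩ := Infinite.exists_notMem_finset (E.image Prod.fst)
    exact ⟨n, fun b hb => hn (Finset.mem_image.2 ⟨_, hb, rfl⟩)⟩
  obtain ⟨a, ha, hca⟩ := hc' _ ((hmY _).2 ⟨n, rfl⟩)
  obtain ⟨⟨m, b⟩, hm, rfl⟩ := (W.mem_ev hb).1 ha
  have hm' : m = n := hm
  subst hm'
  have hτ : Equiv.swap ((m, true) : ℕ × Bool) (m, false) ∈ Tp := by
    intro x
    by_cases h1 : x = (m, true)
    · subst h1
      rw [Equiv.swap_apply_left]
    · by_cases h2 : x = (m, false)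
      · subst h2
        rw [Equiv.swap_apply_right]
      · rw [Equiv.swap_apply_of_ne_of_ne h1 h2]
  have hH' : H = ⊤ := hH
  subst hH'
  have hfx : ∀ i ∈ E, Equiv.swap ((m, true) : ℕ × Bool) (m, false) i = i := by
    intro i hi
    refine Equiv.swap_apply_of_ne_of_ne ?_ ?_
    · rintro rfl
      exact hn _ hi
    · rintro rfl
      exact hn _ hi
  have h1 := hE _ hτ trivial hfx (Pr m) (m, b) (hs m)
    (by rw [Pr_image hτ]; exact hs m) ((hca _).2 rfl)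
  rw [Pr_image hτ] at h1
  have h2 := W.val_bN_inj hb ((hca _).1 h1)
  cases b
  · rw [Equiv.swap_apply_right] at h2
    exact absurd (Prod.mk.inj h2).2 (by decide)
  · rw [Equiv.swap_apply_left] at h2
    exact absurd (Prod.mk.inj h2).2 (by decide)

theorem val_check {π : Pkg (Cd (ℕ × Bool))} {S : ZFSet.{0}}
    (h : ∀ z ∈ S, check z ∈ π.N ∧ π.val (check z) = z) : π.val (check S) = S := by
  ext z
  rw [π.mem_val]
  constructor
  · rintro ⟨y, hy, c, hc, -, rfl⟩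
    obtain ⟨w, hw, rfl, rfl⟩ := el_check.1 hc
    rwa [(h w hw).2]
  · intro hz
    exact ⟨check z, (h z hz).1, ⊤, el_check.2 ⟨_, hz, rfl, rfl⟩, ⟨0, le_top⟩, (h z hz).2⟩

theorem main : ∃ M : Set ZFSet.{0}, M.Countable ∧ IsZF M ∧ MCEmb M ∧ ¬ CACfin M := by
  have hcr : ((sys (DD Tp)).rules ∪ ({rFN Tp} ∪ Set.range fun t : Finset ((ℕ × Bool) × ℕ) × ℕ ×
      ℕ × ℕ => rW Tp t.1 t.2.1 t.2.2.1 t.2.2.2)).Countable := by
    refine (Set.Finite.countable ?_).union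
      ((Set.countable_singleton _).union (Set.countable_range _))
    unfold Sys.rules
    exact Set.toFinite _
  obtain ⟨π, hA, -, hcl⟩ := exists_pkg _ hcr
    (((Set.range xN ∪ Set.range cN) ∪ (Set.range bN ∪ Set.range fun n => sN (Pr n))) ∪
      ({YN, eN} ∪ ({check Rel, check Mem} ∪ Set.range fun q : ℚ => check (real q))))
    ((((Set.countable_range _).union (Set.countable_range _)).union
      ((Set.countable_range _).union (Set.countable_range _))).union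
      ((Set.toFinite _).countable.union
        ((Set.toFinite _).countable.union (Set.countable_range _)))) ⊤
  have hCld : (sys (DD Tp)).Cld π := fun ρ hρ => hcl ρ (Or.inl hρ)
  have hM : IsZF ((sys (DD Tp)).Ms π) := SY.T_ZF.main SY.T_TRU.main SY.T_SEP.main _ _ π hCld
  have g : Gt Tp π :=
    { x := fun a => hA (Or.inl (Or.inl (Or.inl ⟨a, rfl⟩)))
      c := fun j => hA (Or.inl (Or.inl (Or.inr ⟨j, rfl⟩)))
      w := fun E k l i q hq => (hcl _ (Or.inr (Or.inr ⟨(E, k, l, i), rfl⟩)) q hq).1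
      f := fun q hq => (hcl _ (Or.inr (Or.inl rfl)) q hq).1 }
  have hnat : ∀ z ∈ ZFSet.omega, check z ∈ π.N ∧ π.val (check z) = z := by
    intro z hz
    obtain ⟨n, rfl⟩ := mem_omega_iff.1 hz
    exact ⟨π.nat_Z n, π.hat_nat n⟩
  have hpair : ∀ z ∈ ZFSet.prod ZFSet.omega ZFSet.omega, check z ∈ π.N ∧
      π.val (check z) = z := by
    intro z hz
    obtain ⟨a, ha, b, hb, rfl⟩ := ZFSet.mem_prod.1 hz
    have h1 := π.hat_pair (hnat a ha).1 (hnat b hb).1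
    have h2 : π.hat a = a := (hnat a ha).2
    have h3 : π.hat b = b := (hnat b hb).2
    rw [h2, h3] at h1
    exact ⟨π.pair_mem_Z (hnat a ha).1 (hnat b hb).1, h1⟩
  have hR : ∀ q : ℚ, real q ∈ (sys (DD Tp)).Ms π := fun q =>
    ⟨check (real q), ⟨hA (Or.inr (Or.inr (Or.inr ⟨q, rfl⟩))), (sys (DD Tp)).hs_check _⟩,
      val_check fun z hz => hnat z (real_sub _ hz)⟩
  have hRel : Rel ∈ (sys (DD Tp)).Ms π :=
    ⟨check Rel, ⟨hA (Or.inr (Or.inr (Or.inl (Or.inl rfl)))), (sys (DD Tp)).hs_check _⟩,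
      val_check fun z hz => hpair z (ZFSet.mem_sep.1 hz).1⟩
  have hMem : Mem ∈ (sys (DD Tp)).Ms π :=
    ⟨check Mem, ⟨hA (Or.inr (Or.inr (Or.inl (Or.inr rfl)))), (sys (DD Tp)).hs_check _⟩,
      val_check fun z hz => hpair z (ZFSet.mem_sep.1 hz).1⟩
  exact ⟨_, (π.cnt.mono fun _ h => h.1).image _, hM, mcEmb g hM hR hRel hMem,
    not_cacFin hM (fun i => hA (Or.inl (Or.inr (Or.inl ⟨i, rfl⟩))))
      (fun n => hA (Or.inl (Or.inr (Or.inr ⟨n, rfl⟩)))) (hA (Or.inr (Or.inl (Or.inl rfl))))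
      (hA (Or.inr (Or.inl (Or.inr rfl))))⟩

end Pool.Agent.R598.TY
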