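import Pool.Agent.R598.TY.Top

/-!
# Symmetric models with finite supports: dense images of sets of subsets of `ω`
-/

set_option autoImplicit false

namespace Pool.Agent.R598.TY

open Pool.Agent.W868 Pool.Agent.W868.PName Pool.Agent.R598.SY Pool.Agent.R598.PM
open ZFSet (pair)

variable {I : Type} (T : Subgroup (Equiv.Perm I))

/-- The system with the supports that are finite sets. -/
def DD : PD I where
  T := T
  Φ := {⊤}
  ne := ⟨⊤, rfl⟩
  conj := by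
    rintro _ rfl τ hτ
    exact ⟨∅, ⊤, rfl, fun _ _ _ _ => trivial⟩
  dir := by
    rintro _ rfl _ rfl
    exact ⟨⊤, rfl, le_rfl, le_rfl⟩

/-! ### Countability -/

instance [Countable I] : Countable (Cd I) := by
  have h1 : {s : Set ((I × ℕ) × ℕ × Bool) | s.Finite}.Countable := Set.Countable.ofPred_finite
  have h2 : Countable {s : Set ((I × ℕ) × ℕ × Bool) | s.Finite} := h1.to_subtype
  exact Function.Injective.countable (f := fun p : Cd I =>
    (⟨p.s, p.fin⟩ : {s : Set ((I × ℕ) × ℕ × Bool) | s.Finite}))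
    fun p q h => Cd.ext' (congrArg Subtype.val h)

variable (I) in
/-- The labels: a support, three natural numbers and a condition. -/
abbrev J : Type := Finset (I × ℕ) × ℕ × ℕ × ℕ × Cd I

section

variable [Countable I]

variable (I) in
/-- Codes of the labels. -/
noncomputable def cj : J I → ℕ := (Countable.exists_injective_nat (J I)).choose

variable (I) in
theorem cj_inj : Function.Injective (cj I) := (Countable.exists_injective_nat (J I)).choose_spec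

variable (I) in
/-- Codes of the indices of the Cohen reals. -/
noncomputable def ci : I × ℕ → ℕ := (Countable.exists_injective_nat (I × ℕ)).choose

variable (I) in
theorem ci_inj : Function.Injective (ci I) := (Countable.exists_injective_nat (I × ℕ)).choose_spec

/-- The name for the subset of `ω` that codes the label `j` and the Cohen reals of its support. -/
noncomputable def cN (j : J I) : PName (Cd I) :=
  PName.mk (Unit ⊕ ({a // a ∈ j.1} × ℕ))
    (Sum.elim (fun _ => check (nat (Nat.pair 0 (cj I j))))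
      fun t => check (nat (Nat.pair (ci I t.1.1 + 1) t.2)))
    (Sum.elim (fun _ => ⊤) fun t => sg t.1.1 t.2 true)

theorem el_cN {j : J I} {z : PName (Cd I)} {c : Cd I} : El (cN j) z c ↔
    (z = check (nat (Nat.pair 0 (cj I j))) ∧ c = ⊤) ∨
    ∃ a ∈ j.1, ∃ n, z = check (nat (Nat.pair (ci I a + 1) n)) ∧ c = sg a n true := by
  rw [cN, el_mk]
  constructor
  · rintro ⟨_ | ⟨⟨a, ha⟩, n⟩, rfl, rfl⟩
    · exact Or.inl ⟨rfl, rfl⟩
    · exact Or.inr ⟨a, ha, n, rfl, rfl⟩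
  · rintro (⟨rfl, rfl⟩ | ⟨a, ha, n, rfl, rfl⟩)
    · exact ⟨Sum.inl (), rfl, rfl⟩
    · exact ⟨Sum.inr (⟨a, ha⟩, n), rfl, rfl⟩

variable {T}

theorem el_act_cN {ρ : (sys (DD T)).G} {j : J I} {z : PName (Cd I)} {c : Cd I} :
    El (act ((sys (DD T)).ac ρ) (cN j)) z c ↔
    (z = check (nat (Nat.pair 0 (cj I j))) ∧ c = ⊤) ∨
    ∃ a ∈ j.1, ∃ n, z = check (nat (Nat.pair (ci I a + 1) n)) ∧ c = sg (ρ.1 a) n true := by
  rw [el_act]
  constructor
  · rintro ⟨z, c, h, rfl, rfl⟩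
    rcases el_cN.1 h with ⟨rfl, rfl⟩ | ⟨a, ha, n, rfl, rfl⟩
    · exact Or.inl ⟨act_check ((sys (DD T)).top ρ) _, (sys (DD T)).top ρ⟩
    · exact Or.inr ⟨a, ha, n, act_check ((sys (DD T)).top ρ) _, mv_sg _ _ _ _⟩
  · rintro (⟨rfl, rfl⟩ | ⟨a, ha, n, rfl, rfl⟩)
    · exact ⟨_, ⊤, el_cN.2 (Or.inl ⟨rfl, rfl⟩), (act_check ((sys (DD T)).top ρ) _).symm,
        ((sys (DD T)).top ρ).symm⟩
    · exact ⟨_, _, el_cN.2 (Or.inr ⟨a, ha, n, rfl, rfl⟩),
        (act_check ((sys (DD T)).top ρ) _).symm, (mv_sg _ _ _ _).symm⟩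

theorem hs_cN (j : J I) : (sys (DD T)).HS (cN j) := by
  refine (sys (DD T)).hs_iff.2 ⟨⟨_, ⟨j.1, ⊤, rfl, rfl⟩, fun ρ hρ p => feq_of_el fun z c => ?_⟩,
    fun z c hz => ?_⟩
  · rw [el_act_cN, el_cN]
    refine or_congr Iff.rfl (exists_congr fun a => and_congr_right fun ha => exists_congr fun n => ?_)
    rw [hρ.1 a ha]
  · rcases el_cN.1 hz with ⟨rfl, -⟩ | ⟨a, ha, n, rfl, -⟩
    · exact (sys (DD T)).hs_check _
    · exact (sys (DD T)).hs_check _

end

/-! ### Witnesses -/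

/-- The names `y i` are forced to be elements of `X`, have the support `E`, and the pairs of them
with the number `k` are forced to be in `R`. -/
def Sepd (X R : PName (Cd I)) (E : Finset (I × ℕ)) (k l : ℕ) (p : Cd I)
    (y : Fin l → PName (Cd I)) : Prop :=
  (∀ i, (sys (DD T)).HS (y i) ∧ (sys (DD T)).Fix (fixE (DD T) E ⊤) (y i) ∧ Fmem (y i) X p) ∧
  ∀ i j, i ≠ j → Fmem (opN (check (nat k)) (opN (y i) (y j))) R p

open Classical in
/-- A witness. -/
noncomputable def wi (X R : PName (Cd I)) (j : J I) : PName (Cd I) :=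
  if h : (∃ y, Sepd T X R j.1 j.2.1 j.2.2.1 j.2.2.2.2 y) ∧ j.2.2.2.1 < j.2.2.1 then
    h.1.choose ⟨j.2.2.2.1, h.2⟩ else emp

theorem hs_emp : (sys (DD T)).HS (emp : PName (Cd I)) := by
  refine (sys (DD T)).hs_iff.2 ⟨⟨_, ⟨∅, ⊤, rfl, rfl⟩, fun ρ _ p => ?_⟩, fun z c hz => ?_⟩
  · rw [act_emp]
    exact Feq.refl _ _
  · obtain ⟨i, -⟩ := hz
    exact i.elim

variable {T} in
theorem wi_spec (X R : PName (Cd I)) (j : J I) : (sys (DD T)).HS (wi T X R j) ∧
    (sys (DD T)).Fix (fixE (DD T) j.1 ⊤) (wi T X R j) := by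
  unfold wi
  split_ifs with h
  · exact ⟨(h.1.choose_spec.1 _).1, (h.1.choose_spec.1 _).2.1⟩
  · refine ⟨hs_emp T, fun ρ _ p => ?_⟩
    rw [act_emp]
    exact Feq.refl _ _

variable {T} in
theorem wi_sepd {X R : PName (Cd I)} {E : Finset (I × ℕ)} {k l : ℕ} {p : Cd I}
    (h : ∃ y, Sepd T X R E k l p y) :
    Sepd T X R E k l p fun i => wi T X R (E, k, l, i.1, p) := by
  have h1 : (fun i : Fin l => wi T X R (E, k, l, i.1, p)) = h.choose := by
    funext i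
    have h2 : (∃ y, Sepd T X R E k l p y) ∧ i.1 < l := ⟨h, i.2⟩
    unfold wi
    exact dif_pos h2
  rw [h1]
  exact h.choose_spec

/-- The rule for the witnesses. -/
noncomputable def rW (E : Finset (I × ℕ)) (k l i : ℕ) : Rule (Cd I) := fun q => match q with
  | ⟨_, .mem s t, v, p⟩ => (wi T (tv v s) (tv v t) (E, k, l, i, p), p)
  | q => (emp, q.p)

/-- The name for the dense image. -/
noncomputable def FN [Countable I] (X R : PName (Cd I)) : PName (Cd I) :=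
  (sys (DD T)).orb (J I) fun j => opN (cN j) (wi T X R j)

/-- The rule for the dense image. -/
noncomputable def rFN [Countable I] : Rule (Cd I) := fun q => match q with
  | ⟨_, .mem s t, v, p⟩ => (FN T (tv v s) (tv v t), p)
  | q => (emp, q.p)

theorem hs_FN [Countable I] (X R : PName (Cd I)) : (sys (DD T)).HS (FN T X R) :=
  (sys (DD T)).hs_orb fun j => (sys (DD T)).hs_opN (hs_cN j) (wi_spec X R j).1

/-- The package is closed under the rules. -/
structure Gt [Countable I] (π : Pkg (Cd I)) : Prop where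
  x : ∀ a, xN a ∈ π.N
  c : ∀ j, cN j ∈ π.N
  w : ∀ E k l i, ∀ q : Query (Cd I), q.In π.N π.C → (rW T E k l i q).1 ∈ π.N
  f : ∀ q : Query (Cd I), q.In π.N π.C → (rFN T q).1 ∈ π.N

section

variable {T} [Countable I] {π : Pkg (Cd I)} (g : Gt T π)

include g

theorem wi_mem {X R : PName (Cd I)} (hX : X ∈ π.N) (hR : R ∈ π.N) (E : Finset (I × ℕ))
    (k l i m : ℕ) : wi T X R (E, k, l, i, π.g m) ∈ π.N :=
  g.w E k l i ⟨0, .mem (Sum.inr X) (Sum.inr R), Fin.elim0, π.g m⟩ (query2 hX hR (π.gC m))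

theorem FN_mem {X R : PName (Cd I)} (hX : X ∈ π.N) (hR : R ∈ π.N) : FN T X R ∈ π.N :=
  g.f ⟨0, .mem (Sum.inr X) (Sum.inr R), Fin.elim0, π.g 0⟩ (query2 hX hR (π.gC 0))

theorem val_xN_inj {a b : I × ℕ} (h : π.val (xN a) = π.val (xN b)) : a = b := by
  by_contra hab
  obtain ⟨n, hn⟩ := (π.val_eq_iff (g.x a) (g.x b)).1 h
  exact not_feq_xN hab _ hn

omit g [Countable I] in
theorem nat_mem_xN {a : I × ℕ} {n : ℕ} :
    nat n ∈ π.val (xN a) ↔ ∃ k, π.g k ≤ sg a n true := by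
  rw [π.mem_val]
  constructor
  · rintro ⟨y, hy, c, hc, hk, h⟩
    obtain ⟨m, rfl, rfl⟩ := el_xN.1 hc
    have h1 : π.val (check (nat m)) = nat m := π.hat_nat m
    rw [h1] at h
    rwa [← nat_injective h]
  · intro h
    exact ⟨_, π.nat_Z n, _, el_xN.2 ⟨n, rfl, rfl⟩, h, π.hat_nat n⟩

omit g [Countable I] in
theorem xN_sub {a : I × ℕ} {z : ZFSet.{0}} (h : z ∈ π.val (xN a)) : ∃ n, z = nat n := by
  obtain ⟨y, hy, c, hc, hk, rfl⟩ := π.mem_val.1 h
  obtain ⟨m, rfl, rfl⟩ := el_xN.1 hc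
  exact ⟨m, π.hat_nat m⟩

omit g in
theorem nat_mem_cN {ρ : (sys (DD T)).G} {j : J I} {m : ℕ} :
    nat m ∈ π.val (act ((sys (DD T)).ac ρ) (cN j)) ↔ m = Nat.pair 0 (cj I j) ∨
      ∃ a ∈ j.1, ∃ n, m = Nat.pair (ci I a + 1) n ∧ nat n ∈ π.val (xN (ρ.1 a)) := by
  rw [π.mem_val]
  constructor
  · rintro ⟨y, hy, c, hc, hk, h⟩
    rcases el_act_cN.1 hc with ⟨rfl, rfl⟩ | ⟨a, ha, n, rfl, rfl⟩
    · have h1 : π.val (check (nat (Nat.pair 0 (cj I j)))) = nat (Nat.pair 0 (cj I j)) :=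
        π.hat_nat _
      rw [h1] at h
      exact Or.inl (nat_injective h).symm
    · have h1 : π.val (check (nat (Nat.pair (ci I a + 1) n))) = nat (Nat.pair (ci I a + 1) n) :=
        π.hat_nat _
      rw [h1] at h
      exact Or.inr ⟨a, ha, n, (nat_injective h).symm, nat_mem_xN.2 hk⟩
  · rintro (rfl | ⟨a, ha, n, rfl, h⟩)
    · exact ⟨_, π.nat_Z _, ⊤, el_act_cN.2 (Or.inl ⟨rfl, rfl⟩), ⟨0, le_top⟩, π.hat_nat _⟩
    · exact ⟨_, π.nat_Z _, _, el_act_cN.2 (Or.inr ⟨a, ha, n, rfl, rfl⟩), nat_mem_xN.1 h,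
        π.hat_nat _⟩

omit g in
theorem cN_sub {ρ : (sys (DD T)).G} {j : J I} {z : ZFSet.{0}}
    (h : z ∈ π.val (act ((sys (DD T)).ac ρ) (cN j))) : z ∈ ZFSet.omega := by
  obtain ⟨y, hy, c, hc, hk, rfl⟩ := π.mem_val.1 h
  rcases el_act_cN.1 hc with ⟨rfl, rfl⟩ | ⟨a, ha, n, rfl, rfl⟩
  · exact mem_omega_iff.2 ⟨_, π.hat_nat _⟩
  · exact mem_omega_iff.2 ⟨_, π.hat_nat _⟩

/-- The code determines the label and the Cohen reals. -/
theorem cN_inj {ρ ρ' : (sys (DD T)).G} {j j' : J I}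
    (h : π.val (act ((sys (DD T)).ac ρ) (cN j)) = π.val (act ((sys (DD T)).ac ρ') (cN j'))) :
    j = j' ∧ ∀ a ∈ j.1, ρ.1 a = ρ'.1 a := by
  have h1 : j = j' := by
    have h2 : nat (Nat.pair 0 (cj I j)) ∈ π.val (act ((sys (DD T)).ac ρ) (cN j)) :=
      nat_mem_cN.2 (Or.inl rfl)
    rw [h] at h2
    rcases nat_mem_cN.1 h2 with h3 | ⟨a, -, n, h3, -⟩
    · exact cj_inj I (Nat.pair_eq_pair.1 h3).2
    · have := (Nat.pair_eq_pair.1 h3).1
      omega
  subst h1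
  refine ⟨rfl, fun a ha => val_xN_inj g ?_⟩
  have key : ∀ ρ ρ' : (sys (DD T)).G,
      π.val (act ((sys (DD T)).ac ρ) (cN j)) = π.val (act ((sys (DD T)).ac ρ') (cN j)) →
      π.val (xN (ρ.1 a)) ⊆ π.val (xN (ρ'.1 a)) := by
    intro ρ ρ' h z hz
    obtain ⟨n, rfl⟩ := xN_sub hz
    have h2 : nat (Nat.pair (ci I a + 1) n) ∈ π.val (act ((sys (DD T)).ac ρ) (cN j)) :=
      nat_mem_cN.2 (Or.inr ⟨a, ha, n, rfl, hz⟩)
    rw [h] at h2
    rcases nat_mem_cN.1 h2 with h3 | ⟨b, -, m, h3, h4⟩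
    · have := (Nat.pair_eq_pair.1 h3).1
      omega
    · obtain ⟨h5, rfl⟩ := Nat.pair_eq_pair.1 h3
      have h6 : a = b := ci_inj I (by omega)
      rwa [h6]
  exact (key ρ ρ' h).antisymm (key ρ' ρ h.symm)

omit g [Countable I] in
theorem exists_common {α : Type*} [Finite α] {S : α → ℕ → Prop}
    (mono : ∀ a m n, m ≤ n → S a m → S a n) (h : ∀ a, ∃ n, S a n) : ∃ n, ∀ a, S a n := by
  choose f hf using h
  obtain ⟨N, hN⟩ := (Set.finite_range f).bddAbove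
  exact ⟨N, fun a => mono a _ _ (hN ⟨a, rfl⟩) (hf a)⟩

omit g [Countable I] in
theorem fmem_mono {x y : PName (Cd I)} {m n : ℕ} (h : m ≤ n) (h' : Fmem x y (π.g m)) :
    Fmem x y (π.g n) := h'.mono (π.g_anti h)

omit g [Countable I] in
/-- The truth lemma for separated families. -/
theorem sepd_iff {X R : PName (Cd I)} (hX : X ∈ π.N) (hR : R ∈ π.N) {E : Finset (I × ℕ)}
    {k l : ℕ} {y : Fin l → PName (Cd I)} (hy : ∀ i, y i ∈ π.N)
    (hy' : ∀ i, (sys (DD T)).HS (y i) ∧ (sys (DD T)).Fix (fixE (DD T) E ⊤) (y i)) :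
    (∃ n, Sepd T X R E k l (π.g n) y) ↔ (∀ i, π.val (y i) ∈ π.val X) ∧
      ∀ i j, i ≠ j → pair (nat k) (pair (π.val (y i)) (π.val (y j))) ∈ π.val R := by
  have hv : ∀ i j, π.val (opN (check (nat k)) (opN (y i) (y j))) =
      pair (nat k) (pair (π.val (y i)) (π.val (y j))) := by
    intro i j
    have h1 : π.val (check (nat k)) = nat k := π.hat_nat k
    rw [π.val_opN (π.nat_Z k) (π.opN_mem (hy i) (hy j)), π.val_opN (hy i) (hy j), h1]
  have hN : ∀ i j, opN (check (nat k)) (opN (y i) (y j)) ∈ π.N := fun i j =>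
    π.opN_mem (π.nat_Z k) (π.opN_mem (hy i) (hy j))
  constructor
  · rintro ⟨n, h1, h2⟩
    refine ⟨fun i => (π.val_mem_iff (hy i) hX).2 ⟨n, (h1 i).2.2⟩, fun i j hij => ?_⟩
    rw [← hv i j]
    exact (π.val_mem_iff (hN i j) hR).2 ⟨n, h2 i j hij⟩
  · rintro ⟨h1, h2⟩
    obtain ⟨m, hm⟩ := exists_common (S := fun i n => Fmem (y i) X (π.g n))
      (fun i m n hmn h => fmem_mono hmn h) fun i => (π.val_mem_iff (hy i) hX).1 (h1 i)
    obtain ⟨m', hm'⟩ := exists_common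
      (S := fun (t : Fin l × Fin l) n => t.1 ≠ t.2 →
        Fmem (opN (check (nat k)) (opN (y t.1) (y t.2))) R (π.g n))
      (fun t m n hmn h h' => fmem_mono hmn (h h')) fun t => by
        by_cases ht : t.1 = t.2
        · exact ⟨0, fun h => absurd ht h⟩
        · have h3 := h2 t.1 t.2 ht
          rw [← hv] at h3
          obtain ⟨n, hn⟩ := (π.val_mem_iff (hN _ _) hR).1 h3
          exact ⟨n, fun _ => hn⟩
    refine ⟨max m m', fun i => ⟨(hy' i).1, (hy' i).2, (hm i).mono (π.g_le_left _ _)⟩,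
      fun i j hij => (hm' (i, j) hij).mono (π.g_le_right _ _)⟩

/-- The dense image. -/
theorem exists_dense (hM : IsZF ((sys (DD T)).Ms π)) {X d : ZFSet.{0}}
    {ρ : ZFSet.{0} → ZFSet.{0} → ℝ} (hX : X ∈ (sys (DD T)).Ms π) (hd : d ∈ (sys (DD T)).Ms π)
    (hρ : ∀ x ∈ X, ∀ y ∈ X, ∀ z, pair (pair x y) z ∈ d ↔ z = real (ρ x y))
    (hρs : ∀ x ∈ X, ∀ y ∈ X, ρ x y = ρ y x)
    (hρt : ∀ x ∈ X, ∀ y ∈ X, ∀ z ∈ X, ρ x z ≤ ρ x y + ρ y z)
    (htb : ∀ ε > 0, ∃ s : Set ZFSet.{0}, s.Finite ∧ (∀ x ∈ s, x ∈ X) ∧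
      ∀ y ∈ X, ∃ x ∈ s, ρ x y < ε) :
    ∃ F ∈ (sys (DD T)).Ms π, (∀ c y, pair c y ∈ F → c ⊆ ZFSet.omega ∧ y ∈ X) ∧
      (∀ c y y', pair c y ∈ F → pair c y' ∈ F → y = y') ∧
      ∀ x ∈ X, ∀ ε > 0, ∃ c y, pair c y ∈ F ∧ ρ x y < ε := by
  classical
  have hB := hM.base
  have hom := hM.infinity
  obtain ⟨Pw, hPw, hPw'⟩ := hM.power _ hM.infinity
  -- the relation
  have hR1 := hM.sep_mem (Q := fun w => ∃ k ∈ ZFSet.omega, ∃ x ∈ X, ∃ y ∈ X,
    w = pair k (pair x y) ∧ ∃ r ∈ (sys (DD T)).Ms π, pair (pair x y) r ∈ d ∧ k ∈ r) (by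
    (repeat' first
      | assumption
      | exact DfnF.proj _
      | exact DfnF.const (by assumption)
      | apply Dfn.not | apply Dfn.and | apply Dfn.or | apply Dfn.imp | apply Dfn.iff
      | apply Dfn.ex | apply hB.bex | apply hB.ball
      | apply Dfn.eq | apply Dfn.mem | apply hB.pair'))
    (hM.prod_mem hom (hM.prod_mem hX hX))
  obtain ⟨tR, ⟨htR, htR'⟩, hvR⟩ := hR1
  obtain ⟨tX, ⟨htX, htX'⟩, rfl⟩ := hX
  have hmR : ∀ (k : ℕ), ∀ x ∈ π.val tX, ∀ y ∈ π.val tX,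
      (pair (nat k) (pair x y) ∈ π.val tR ↔ nat k ∈ real (ρ x y)) := by
    intro k x hx y hy
    rw [hvR, ZFSet.mem_sep]
    constructor
    · rintro ⟨-, k', -, x', -, y', -, h1, r, -, h2, h3⟩
      obtain ⟨h4, h5⟩ := ZFSet.pair_inj.1 h1
      obtain ⟨rfl, rfl⟩ := ZFSet.pair_inj.1 h5
      rw [h4]
      rwa [(hρ x hx y hy r).1 h2] at h3
    · intro h
      have hk : nat k ∈ ZFSet.omega := mem_omega_iff.2 ⟨k, rfl⟩
      exact ⟨ZFSet.pair_mem_prod.2 ⟨hk, ZFSet.pair_mem_prod.2 ⟨hx, hy⟩⟩, _, hk, x, hx, y, hy, rfl,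
        _, real_rho_mem hM hd hρ hx hy, (hρ x hx y hy _).2 rfl, h⟩
  -- the dense image
  have hFM : π.val (FN T tX tR) ∈ (sys (DD T)).Ms π := ⟨_, ⟨FN_mem g htX htR, hs_FN T _ _⟩, rfl⟩
  have hXM : π.val tX ∈ (sys (DD T)).Ms π := ⟨_, ⟨htX, htX'⟩, rfl⟩
  have hF := hM.sep_mem (Q := fun w => ∃ c ∈ Pw, ∃ y ∈ π.val tX, w = pair c y) (by
    (repeat' first
      | assumption
      | exact DfnF.proj _
      | exact DfnF.const (by assumption)
      | apply Dfn.not | apply Dfn.and | apply Dfn.or | apply Dfn.imp | apply Dfn.iff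
      | apply hB.bex | apply hB.ball
      | apply Dfn.eq | apply Dfn.mem | apply hB.pair')) hFM
  have hel : ∀ c y, pair c y ∈ π.val (FN T tX tR) → ∃ (ρ : (sys (DD T)).G) (j : J I),
      c = π.val (act ((sys (DD T)).ac ρ) (cN j)) ∧
      y = π.val (act ((sys (DD T)).ac ρ) (wi T tX tR j)) ∧
      act ((sys (DD T)).ac ρ) (wi T tX tR j) ∈ π.N := by
    intro c y h
    obtain ⟨u, hu, e, he, -, h1⟩ := π.mem_val.1 h
    obtain ⟨ρ, j, rfl, rfl⟩ := (sys (DD T)).el_orb.1 he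
    rw [act_opN ((sys (DD T)).top ρ)] at hu h1
    rw [π.val_opN (π.fst_mem hu) (π.snd_mem hu)] at h1
    obtain ⟨rfl, rfl⟩ := ZFSet.pair_inj.1 h1
    exact ⟨ρ, j, rfl, rfl, π.snd_mem hu⟩
  refine ⟨_, hF, fun c y h => ?_, fun c y y' h h' => ?_, fun x hx ε hε => ?_⟩
  · obtain ⟨-, c', hc', y', hy', h1⟩ := ZFSet.mem_sep.1 h
    obtain ⟨rfl, rfl⟩ := ZFSet.pair_inj.1 h1
    exact ⟨((hPw' c).1 hc').2, hy'⟩
  · obtain ⟨σ, j, hc, rfl, hN⟩ := hel c y (ZFSet.mem_sep.1 h).1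
    obtain ⟨σ', j', hc', rfl, hN'⟩ := hel c y' (ZFSet.mem_sep.1 h').1
    obtain ⟨rfl, h1⟩ := cN_inj g (hc.symm.trans hc')
    refine (π.val_eq_iff hN hN').2 ⟨0, ?_⟩
    have h2 : σ⁻¹ * σ' ∈ fixE (DD T) j.1 ⊤ := by
      obtain ⟨τ, hτ, h3⟩ := σ.2
      obtain ⟨τ', hτ', h3'⟩ := σ'.2
      refine ⟨fun a ha => ?_, τ⁻¹ * τ', T.mul_mem (T.inv_mem hτ) hτ', trivial, h3.inv.mul h3'⟩
      change σ.1.symm (σ'.1 a) = a
      rw [← h1 a ha, Equiv.symm_apply_apply]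
    have h3 := (wi_spec (T := T) tX tR j).2 (σ⁻¹ * σ') h2 (((sys (DD T)).ac σ)⁻¹ (π.g 0))
    have h4 := feq_act' (e := (sys (DD T)).ac σ) h3
    rw [← act_mul, ← (sys (DD T)).ac.map_mul, mul_inv_cancel_left, app_inv] at h4
    exact h4.symm
  · obtain ⟨q, hq0, hqε⟩ := exists_rat_btwn hε
    obtain ⟨s, hs, hsX, hnet⟩ := htb (q / 2) (by linarith)
    obtain ⟨tx, ⟨htx, htx'⟩, rfl⟩ := hM.trans _ hXM _ hx
    obtain ⟨_, ⟨E, _, rfl, rfl⟩, hE⟩ := htx'.sym
    let k := Encodable.encode q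
    have hval : ∀ (l : ℕ) (y : Fin l → PName (Cd I)), (∀ i, y i ∈ π.N) →
        (∀ i, (sys (DD T)).HS (y i) ∧ (sys (DD T)).Fix (fixE (DD T) E ⊤) (y i)) →
        ((∃ n, Sepd T tX tR E k l (π.g n) y) ↔ (∀ i, π.val (y i) ∈ π.val tX) ∧
          ∀ i j, i ≠ j → (q : ℝ) < ρ (π.val (y i)) (π.val (y j))) := by
      intro l y hy hy'
      rw [sepd_iff htX htR hy hy']
      refine and_congr_right fun h1 => forall_congr' fun i => forall_congr' fun j =>
        forall_congr' fun _ => ?_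
      rw [hmR k _ (h1 i) _ (h1 j), enc_mem_real]
    -- the sizes of the separated families are bounded
    have hbd : ∀ l, (∃ n y, Sepd T tX tR E k l (π.g n) y) → l ≤ s.ncard := by
      rintro l ⟨n, h⟩
      have h1 := wi_sepd h
      obtain ⟨h2, h3⟩ := (hval l (fun i => wi T tX tR (E, k, l, i.1, π.g n))
        (fun i => wi_mem g htX htR E k l i n) fun i => wi_spec _ _ _).1 ⟨n, h1⟩
      choose c hcs hc using fun i => hnet _ (h2 i)
      have h4 : Function.Injective c := by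
        intro i j hij
        by_contra hne
        have h5 := h3 i j hne
        have h6 := hρt _ (h2 i) _ (hsX _ (hcs i)) _ (h2 j)
        have h7 := hc i
        have h8 := hc j
        rw [← hij] at h8
        rw [hρs _ (h2 i) _ (hsX _ (hcs i))] at h6
        linarith
      have h5 : (Set.range c).ncard = l := by
        rw [← Set.image_univ, Set.ncard_image_of_injective _ h4, Set.ncard_univ, Nat.card_fin]
      rw [← h5]
      exact Set.ncard_le_ncard (by rintro _ ⟨i, rfl⟩; exact hcs i) hs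
    have hmax : ∃ l, (∃ n y, Sepd T tX tR E k l (π.g n) y) ∧
        ¬ ∃ n y, Sepd T tX tR E k (l + 1) (π.g n) y := by
      by_contra hc
      push Not at hc
      have h1 : ∀ l, ∃ n y, Sepd T tX tR E k l (π.g n) y := by
        intro l
        induction l with
        | zero => exact ⟨0, Fin.elim0, fun i => i.elim0, fun i => i.elim0⟩
        | succ l ih =>
          exact hc l ih
      have h2 := hbd _ (h1 (s.ncard + 1))
      omega
    obtain ⟨l, ⟨n, h⟩, hl⟩ := hmax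
    have hw := wi_sepd h
    have hwN : ∀ i : Fin l, wi T tX tR (E, k, l, i.1, π.g n) ∈ π.N :=
      fun i => wi_mem g htX htR E k l i n
    obtain ⟨h2, h3⟩ := (hval l (fun i => wi T tX tR (E, k, l, i.1, π.g n))
        hwN fun i => wi_spec _ _ _).1 ⟨n, hw⟩
    have h4 : ∃ i : Fin l, ρ (π.val tx) (π.val (wi T tX tR (E, k, l, i.1, π.g n))) ≤ q := by
      by_contra hc
      push Not at hc
      refine hl ?_
      have h8 := (hval (l + 1)
        (Fin.cons tx fun i : Fin l => wi T tX tR (E, k, l, i.1, π.g n)) (Fin.cases htx hwN)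
        (Fin.cases ⟨htx', hE⟩ fun i => wi_spec _ _ _)).2
      obtain ⟨m, hm⟩ := h8 ⟨Fin.cases hx h2, by
        refine Fin.cases (Fin.cases (fun h => absurd rfl h) fun j _ => hc j)
          fun i => Fin.cases (fun _ => ?_) fun j hij => h3 i j fun h => hij (congrArg _ h)
        rw [Fin.cons_succ, Fin.cons_zero, hρs _ (h2 i) _ hx]
        exact hc i⟩
      exact ⟨m, _, hm⟩
    obtain ⟨i, hi⟩ := h4
    let j : J I := (E, k, l, i.1, π.g n)
    have hjN : opN (cN j) (wi T tX tR j) ∈ π.N := π.opN_mem (g.c j) (hwN i)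
    have h5 : pair (π.val (cN j)) (π.val (wi T tX tR j)) ∈ π.val (FN T tX tR) := by
      rw [← π.val_opN (g.c j) (hwN i)]
      exact π.val_mem_val hjN ((sys (DD T)).el_orb_one _ j) (le_top (a := π.g 0))
    have h6 : π.val (cN j) ∈ Pw := by
      refine (hPw' _).2 ⟨⟨_, ⟨g.c j, hs_cN j⟩, rfl⟩, fun z hz => ?_⟩
      have h7 : act ((sys (DD T)).ac 1) (cN j) = cN j := by
        rw [(sys (DD T)).ac.map_one, act_one]
      rw [← h7] at hz
      exact cN_sub hz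
    exact ⟨_, _, ZFSet.mem_sep.2 ⟨h5, _, h6, _, h2 i, rfl⟩, hi.trans_lt hqε⟩

end

end Pool.Agent.R598.TY
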