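import Pool.Agent.R598.TY.Defs
import Pool.Agent.R598.PM.Mod2

/-!
# Compact metrizable spaces in a transitive model of ZF: embeddings in the Tychonoff cube
-/

set_option autoImplicit false

namespace Pool.Agent.R598.TY

open Pool.Agent.W868 Pool.Agent.R598.PM
open ZFSet (pair)

theorem mem_real {r : ℝ} {z : ZFSet.{0}} :
    z ∈ real r ↔ ∃ q : ℚ, (q : ℝ) < r ∧ z = nat (Encodable.encode q) := by
  rw [real, ZFSet.mem_sep, mem_omega_iff]
  constructor
  · exact fun h => h.2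
  · rintro ⟨q, h, rfl⟩
    exact ⟨⟨_, rfl⟩, q, h, rfl⟩

theorem real_sub (r : ℝ) : real r ⊆ ZFSet.omega := ZFSet.sep_subset

theorem enc_mem_real {r : ℝ} {q : ℚ} : nat (Encodable.encode q) ∈ real r ↔ (q : ℝ) < r := by
  rw [mem_real]
  constructor
  · rintro ⟨q', h, h'⟩
    rwa [Encodable.encode_injective (nat_injective h')]
  · exact fun h => ⟨q, h, rfl⟩

theorem real_inj {r r' : ℝ} (h : real r = real r') : r = r' := by
  have key : ∀ r r' : ℝ, real r = real r' → r' ≤ r := by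
    intro r r' h
    by_contra hc
    rw [not_le] at hc
    obtain ⟨q, h1, h2⟩ := exists_rat_btwn hc
    have h3 := enc_mem_real.2 h2
    rw [← h] at h3
    exact absurd (enc_mem_real.1 h3) (not_lt.2 h1.le)
  exact le_antisymm (key _ _ h.symm) (key _ _ h)

theorem real_min (r r' : ℝ) : real (min r r') = real r ∩ real r' := by
  ext z
  rw [ZFSet.mem_inter, mem_real, mem_real, mem_real]
  constructor
  · rintro ⟨q, h, rfl⟩
    exact ⟨⟨q, (lt_min_iff.1 h).1, rfl⟩, ⟨q, (lt_min_iff.1 h).2, rfl⟩⟩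
  · rintro ⟨⟨q, h, rfl⟩, ⟨q', h', h2⟩⟩
    rw [← Encodable.encode_injective (nat_injective h2)] at h'
    exact ⟨q, lt_min h h', rfl⟩

theorem lt_iff {r r' : ℝ} : r < r' ↔ ∃ k ∈ real r', k ∉ real r := by
  constructor
  · intro h
    obtain ⟨q, h1, h2⟩ := exists_rat_btwn h
    exact ⟨_, enc_mem_real.2 h2, fun h3 => absurd (enc_mem_real.1 h3) (not_lt.2 h1.le)⟩
  · rintro ⟨k, hk, hk'⟩
    obtain ⟨q, hq, rfl⟩ := mem_real.1 hk
    by_contra h
    exact hk' (enc_mem_real.2 (hq.trans_le (not_lt.1 h)))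

section

variable {M : Set ZFSet.{0}} (hM : IsZF M) (hR : ∀ q : ℚ, real q ∈ M)
  {X τ d : ZFSet.{0}} {ρ : ZFSet.{0} → ZFSet.{0} → ℝ} (hX : X ∈ M) (hτ : τ ∈ M) (hd : d ∈ M)
  (hρ : ∀ x ∈ X, ∀ y ∈ X, ∀ z, pair (pair x y) z ∈ d ↔ z = real (ρ x y))
  (hρ0 : ∀ x ∈ X, ∀ y ∈ X, ρ x y = 0 ↔ x = y) (hρs : ∀ x ∈ X, ∀ y ∈ X, ρ x y = ρ y x)
  (hρt : ∀ x ∈ X, ∀ y ∈ X, ∀ z ∈ X, ρ x z ≤ ρ x y + ρ y z)
  (hρT : ∀ O ∈ M, O ⊆ X → (O ∈ τ ↔ ∀ x ∈ O, ∃ ε > 0, ∀ y ∈ X, ρ x y < ε → y ∈ O))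

include hρ0 hρs hρt in
theorem rho_nonneg {x y : ZFSet.{0}} (hx : x ∈ X) (hy : y ∈ X) : 0 ≤ ρ x y := by
  have h1 := hρt x hx y hy x hx
  rw [(hρ0 x hx x hx).2 rfl, hρs y hy x hx] at h1
  linarith

include hM hd hρ in
theorem real_rho_mem {x y : ZFSet.{0}} (hx : x ∈ X) (hy : y ∈ X) : real (ρ x y) ∈ M :=
  (hM.of_pair_mem (hM.trans _ hd _ ((hρ x hx y hy _).2 rfl))).2

include hM hd hρ in
theorem lt_rho_iff {x y : ZFSet.{0}} (hx : x ∈ X) (hy : y ∈ X) (q : ℚ) :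
    (∃ r ∈ M, pair (pair x y) r ∈ d ∧ ∃ k ∈ real q, k ∉ r) ↔ ρ x y < q := by
  rw [lt_iff]
  constructor
  · rintro ⟨r, -, h, h'⟩
    rwa [(hρ x hx y hy r).1 h] at h'
  · exact fun h => ⟨_, real_rho_mem hM hd hρ hx hy, (hρ x hx y hy _).2 rfl, h⟩

/-- The open ball. -/
noncomputable def ball (X : ZFSet.{0}) (ρ : ZFSet.{0} → ZFSet.{0} → ℝ) (x : ZFSet.{0}) (q : ℚ) :
    ZFSet.{0} := ZFSet.sep (fun y => ρ x y < q) X

theorem mem_ball {x y : ZFSet.{0}} {q : ℚ} : y ∈ ball X ρ x q ↔ y ∈ X ∧ ρ x y < q := by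
  rw [ball, ZFSet.mem_sep]

include hM hR hX hd hρ in
theorem ball_mem {x : ZFSet.{0}} (hx : x ∈ X) (q : ℚ) : ball X ρ x q ∈ M := by
  have hB := hM.base
  have hxM := hM.trans _ hX _ hx
  have hq := hR q
  have h1 := hM.sep_mem
    (Q := fun y => ∃ r ∈ M, pair (pair x y) r ∈ d ∧ ∃ k ∈ real q, k ∉ r) (by
    (repeat' first
      | assumption
      | exact DfnF.proj _
      | exact DfnF.const (by assumption)
      | apply Dfn.not | apply Dfn.and | apply Dfn.or | apply Dfn.imp | apply Dfn.iff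
      | apply Dfn.ex | apply Dfn.all | apply hB.bex | apply hB.ball
      | apply Dfn.eq | apply Dfn.mem | apply hB.pair')) hX
  have h2 : ZFSet.sep (fun y => ∃ r ∈ M, pair (pair x y) r ∈ d ∧ ∃ k ∈ real q, k ∉ r) X =
      ball X ρ x q := by
    ext y
    rw [ZFSet.mem_sep, mem_ball]
    exact and_congr_right fun hy => lt_rho_iff hM hd hρ hx hy q
  rwa [h2] at h1

include hM hR hX hd hρ hρt hρT in
theorem ball_open {x : ZFSet.{0}} (hx : x ∈ X) (q : ℚ) : ball X ρ x q ∈ τ := by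
  refine (hρT _ (ball_mem hM hR hX hd hρ hx q) fun y hy => (mem_ball.1 hy).1).2 fun y hy => ?_
  obtain ⟨hyX, hy⟩ := mem_ball.1 hy
  refine ⟨q - ρ x y, by linarith, fun z hz hyz => mem_ball.2 ⟨hz, ?_⟩⟩
  have h1 := hρt x hx y hyX z hz
  linarith

include hM hR hX hτ hd hρ hρ0 hρt hρT in
/-- Compact metric spaces are totally bounded. -/
theorem tot_bdd (hComp : IsComp M X τ) {ε : ℝ} (hε : 0 < ε) :
    ∃ s : Set ZFSet.{0}, s.Finite ∧ (∀ x ∈ s, x ∈ X) ∧ ∀ y ∈ X, ∃ x ∈ s, ρ x y < ε := by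
  obtain ⟨q, hq0, hqε⟩ := exists_rat_btwn hε
  have hB := hM.base
  have hq := hR q
  have h1 := hM.sep_mem
    (Q := fun O => ∃ x ∈ X, ∀ y ∈ X, (y ∈ O ↔
      ∃ r ∈ M, pair (pair x y) r ∈ d ∧ ∃ k ∈ real q, k ∉ r)) (by
    (repeat' first
      | assumption
      | exact DfnF.proj _
      | exact DfnF.const (by assumption)
      | apply Dfn.not | apply Dfn.and | apply Dfn.or | apply Dfn.imp | apply Dfn.iff
      | apply Dfn.ex | apply hB.bex | apply hB.ball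
      | apply Dfn.eq | apply Dfn.mem | apply hB.pair')) hτ
  have hmem : ∀ O, O ∈ ZFSet.sep (fun O => ∃ x ∈ X, ∀ y ∈ X, (y ∈ O ↔
      ∃ r ∈ M, pair (pair x y) r ∈ d ∧ ∃ k ∈ real q, k ∉ r)) τ ↔ O ∈ τ ∧ ∃ x ∈ X, ∀ y ∈ X,
      (y ∈ O ↔ ρ x y < q) := by
    intro O
    rw [ZFSet.mem_sep]
    refine and_congr_right fun _ => exists_congr fun x => and_congr_right fun hx =>
      forall_congr' fun y => forall_congr' fun hy => ?_
    rw [lt_rho_iff hM hd hρ hx hy q]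
  obtain ⟨F, hF, hFC, hFf, hcov⟩ := hComp _ h1 (fun O hO => ((hmem O).1 hO).1) fun x hx =>
    ZFSet.mem_sUnion.2 ⟨ball X ρ x q, (hmem _).2 ⟨ball_open hM hR hX hd hρ hρt hρT hx q, x, hx,
      fun y hy => ⟨fun h => (mem_ball.1 h).2, fun h => mem_ball.2 ⟨hy, h⟩⟩⟩,
      mem_ball.2 ⟨hx, by rw [(hρ0 x hx x hx).2 rfl]; exact hq0⟩⟩
  have hFf' : {O | O ∈ F}.Finite := (finIn_iff hM fun z hz => hM.trans _ hF _ hz).1 hFf
  have h2 : ∀ O, ∃ x, O ∈ F → x ∈ X ∧ ∀ y ∈ X, (y ∈ O ↔ ρ x y < q) := by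
    intro O
    by_cases hO : O ∈ F
    · obtain ⟨x, hx, h⟩ := ((hmem O).1 (hFC hO)).2
      exact ⟨x, fun _ => ⟨hx, h⟩⟩
    · exact ⟨O, fun h => absurd h hO⟩
  choose ce hce using h2
  refine ⟨ce '' {O | O ∈ F}, hFf'.image ce, ?_, fun y hy => ?_⟩
  · rintro _ ⟨O, hO, rfl⟩
    exact (hce O hO).1
  · obtain ⟨O, hO, hyO⟩ := ZFSet.mem_sUnion.1 (hcov hy)
    exact ⟨ce O, ⟨O, hO, rfl⟩, (((hce O hO).2 y hy).1 hyO).trans hqε⟩

include hM hR hX hd hρ hρ0 hρs hρt hρT in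
/-- A space with a dense image of a set of real numbers is embeddable in the Tychonoff cube. -/
theorem emb_of_dense {F : ZFSet.{0}} (hF : F ∈ M)
    (hF1 : ∀ c y, pair c y ∈ F → (∃ r, c = real r) ∧ y ∈ X)
    (hF2 : ∀ c y y', pair c y ∈ F → pair c y' ∈ F → y = y')
    (hF3 : ∀ x ∈ X, ∀ ε > 0, ∃ c y, pair c y ∈ F ∧ ρ x y < ε) : EmbTych M X τ := by
  classical
  obtain ⟨Pw, hPw, hPw'⟩ := hM.power _ hM.infinity
  have hB := hM.base
  have hom := hM.infinity
  have hR1 : real (1 : ℚ) ∈ M := hR 1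
  have hR0 : real (0 : ℚ) ∈ M := hR 0
  have hprod : ZFSet.prod (ZFSet.prod X Pw) Pw ∈ M := hM.prod_mem (hM.prod_mem hX hPw) hPw
  let φ : ZFSet.{0} → ℝ → ℝ := fun x c =>
    if h : ∃ y, pair (real c) y ∈ F then min (ρ x h.choose) 1 else 0
  have hφ1 : ∀ x c y, pair (real c) y ∈ F → φ x c = min (ρ x y) 1 := by
    intro x c y h
    have h1 : ∃ y, pair (real c) y ∈ F := ⟨y, h⟩
    change (if h : ∃ y, pair (real c) y ∈ F then min (ρ x h.choose) 1 else 0) = _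
    rw [dif_pos h1, hF2 _ _ y h1.choose_spec h]
  have hφ0 : ∀ x c, (¬ ∃ y, pair (real c) y ∈ F) → φ x c = 0 := by
    intro x c h
    change (if h : ∃ y, pair (real c) y ∈ F then min (ρ x h.choose) 1 else 0) = _
    rw [dif_neg h]
  have hcast1 : ((1 : ℚ) : ℝ) = 1 := by norm_num
  have hcast0 : ((0 : ℚ) : ℝ) = 0 := by norm_num
  have hF3' : ∀ x ∈ X, ∀ ε > 0, ∃ c y, pair (real c) y ∈ F ∧ ρ x y < ε := by
    intro x hx ε hε
    obtain ⟨c, y, h1, h2⟩ := hF3 x hx ε hε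
    obtain ⟨⟨r, rfl⟩, -⟩ := hF1 c y h1
    exact ⟨r, y, h1, h2⟩
  have he := hM.sep_mem
    (Q := fun w => ∃ x ∈ X, ∃ c ∈ Pw, ∃ z ∈ Pw, w = pair (pair x c) z ∧
      ((∃ y ∈ X, pair c y ∈ F ∧ ∃ r ∈ M, pair (pair x y) r ∈ d ∧
        ∀ k ∈ ZFSet.omega, (k ∈ z ↔ k ∈ r ∧ k ∈ real (1 : ℚ))) ∨
      ((∀ y ∈ X, ¬ pair c y ∈ F) ∧ z = real (0 : ℚ)))) (by
    (repeat' first
      | assumption
      | exact DfnF.proj _
      | exact DfnF.const (by assumption)
      | apply Dfn.not | apply Dfn.and | apply Dfn.or | apply Dfn.imp | apply Dfn.iff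
      | apply Dfn.ex | apply hB.bex | apply hB.ball
      | apply Dfn.eq | apply Dfn.mem | apply hB.pair')) hprod
  refine ⟨_, he, φ, ?_, ?_, ?_⟩
  · intro x hx c hc
    have hcP : real c ∈ Pw := (hPw' _).2 ⟨hc, real_sub c⟩
    refine ⟨?_, ?_, ?_⟩
    · by_cases h : ∃ y, pair (real c) y ∈ F
      · obtain ⟨y, h⟩ := h
        rw [hφ1 x c y h]
        exact le_min (rho_nonneg hρ0 hρs hρt hx (hF1 _ y h).2) zero_le_one
      · rw [hφ0 x c h]
    · by_cases h : ∃ y, pair (real c) y ∈ F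
      · obtain ⟨y, h⟩ := h
        rw [hφ1 x c y h]
        exact min_le_right _ _
      · rw [hφ0 x c h]
        exact zero_le_one
    · intro z
      rw [ZFSet.mem_sep]
      constructor
      · rintro ⟨-, x', -, c', -, z', hz', heq, h⟩
        obtain ⟨h1, rfl⟩ := ZFSet.pair_inj.1 heq
        obtain ⟨rfl, rfl⟩ := ZFSet.pair_inj.1 h1
        rcases h with ⟨y, hy, hcy, r, -, hr, hk⟩ | ⟨h, h'⟩
        · rw [hφ1 x c y hcy, real_min, ← hcast1]
          rw [hρ x hx y hy] at hr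
          subst hr
          ext k
          rw [ZFSet.mem_inter]
          constructor
          · intro h
            exact (hk k (((hPw' z).1 hz').2 h)).1 h
          · intro h
            exact (hk k (real_sub _ h.1)).2 h
        · rw [hφ0 x c fun ⟨y, hy⟩ => h y (hF1 _ y hy).2 hy, ← hcast0, h']
      · rintro rfl
        by_cases h : ∃ y, pair (real c) y ∈ F
        · obtain ⟨y, hcy⟩ := h
          have hy := (hF1 _ y hcy).2
          have h1 : real (ρ x y) ∩ real (1 : ℚ) ∈ M := by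
            have hrM := real_rho_mem hM hd hρ hx hy
            have h2 := hM.sep_mem (Q := fun k => k ∈ real (1 : ℚ)) (by
              (repeat' first
                | assumption
                | exact DfnF.proj _
                | exact DfnF.const (by assumption)
                | apply Dfn.mem)) hrM
            have h3 : ZFSet.sep (fun k => k ∈ real (1 : ℚ)) (real (ρ x y)) =
                real (ρ x y) ∩ real (1 : ℚ) := by
              ext k
              rw [ZFSet.mem_sep, ZFSet.mem_inter]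
            rwa [h3] at h2
          have h2 : real (ρ x y) ∩ real (1 : ℚ) ∈ Pw := (hPw' _).2 ⟨h1, fun k hk =>
            real_sub _ (ZFSet.mem_inter.1 hk).1⟩
          rw [hφ1 x c y hcy, real_min, ← hcast1]
          exact ⟨ZFSet.pair_mem_prod.2 ⟨ZFSet.pair_mem_prod.2 ⟨hx, hcP⟩, h2⟩, x, hx, _, hcP, _,
            h2, rfl, Or.inl ⟨y, hy, hcy, _, real_rho_mem hM hd hρ hx hy, (hρ x hx y hy _).2 rfl,
            fun k _ => ZFSet.mem_inter⟩⟩
        · have h2 : real (0 : ℚ) ∈ Pw := (hPw' _).2 ⟨hR0, real_sub _⟩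
          rw [hφ0 x c h, ← hcast0]
          exact ⟨ZFSet.pair_mem_prod.2 ⟨ZFSet.pair_mem_prod.2 ⟨hx, hcP⟩, h2⟩, x, hx, _, hcP, _,
            h2, rfl, Or.inr ⟨fun y _ hy => h ⟨y, hy⟩, rfl⟩⟩
  · intro x hx y hy h
    by_contra hne
    have hpos : 0 < ρ x y := lt_of_le_of_ne (rho_nonneg hρ0 hρs hρt hx hy)
      fun h0 => hne ((hρ0 x hx y hy).1 h0.symm)
    obtain ⟨c, z, hcz, h1⟩ := hF3' x hx (min (ρ x y / 2) 1) (lt_min (by linarith) one_pos)
    have hz := (hF1 _ z hcz).2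
    have h2 := h c (hM.of_pair_mem (hM.trans _ hF _ hcz)).1
    rw [hφ1 x c z hcz, hφ1 y c z hcz] at h2
    obtain ⟨h3, h4⟩ := lt_min_iff.1 h1
    rw [min_eq_left h4.le] at h2
    have h5 : ρ y z ≤ ρ x z := by
      rcases le_total (ρ y z) 1 with h6 | h6
      · rw [min_eq_left h6] at h2
        exact h2.ge
      · rw [min_eq_right h6] at h2
        linarith
    have h6 := hρt x hx z hz y hy
    rw [hρs z hz y hy] at h6
    linarith
  · intro O hO hOX
    rw [hρT O hO hOX]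
    constructor
    · intro h x hx
      have hxX := hOX hx
      obtain ⟨ε, hε, h1⟩ := h x hx
      obtain ⟨c, z, hcz, h2⟩ := hF3' x hxX (min (ε / 3) (1 / 3))
        (lt_min (by linarith) (by norm_num))
      obtain ⟨h3, h4⟩ := lt_min_iff.1 h2
      have hz := (hF1 _ z hcz).2
      refine ⟨{c}, ?_, min (ε / 3) (1 / 3),
        lt_min (by linarith) (by norm_num), fun y hy h5 => h1 y hy ?_⟩
      · intro c' hc'
        rw [Finset.mem_singleton.1 hc']
        exact (hM.of_pair_mem (hM.trans _ hF _ hcz)).1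
      · have h6 := h5 c (Finset.mem_singleton_self c)
        rw [hφ1 x c z hcz, hφ1 y c z hcz, min_eq_left (by linarith : ρ x z ≤ 1)] at h6
        have h7 := (abs_lt.1 h6).2
        obtain ⟨h8, h9⟩ := lt_min_iff.1 h7
        have h10 : ρ y z ≤ 1 := by
          by_contra hc
          rw [min_eq_right (not_le.1 hc).le] at h9
          linarith
        rw [min_eq_left h10] at h8
        have h11 := hρt x hxX z hz y hy
        rw [hρs z hz y hy] at h11
        linarith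
    · intro h x hx
      have hxX := hOX hx
      obtain ⟨s, hs, ε, hε, h1⟩ := h x hx
      refine ⟨ε, hε, fun y hy hxy => h1 y hy fun c hc => ?_⟩
      by_cases h2 : ∃ z, pair (real c) z ∈ F
      · obtain ⟨z, hcz⟩ := h2
        have hz := (hF1 _ z hcz).2
        rw [hφ1 x c z hcz, hφ1 y c z hcz]
        refine (abs_min_sub_min_le_max _ _ _ _).trans_lt (max_lt ?_ (by simpa using hε))
        have h3 := hρt x hxX y hy z hz
        have h4 := hρt y hy x hxX z hz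
        rw [hρs y hy x hxX] at h4
        rw [abs_lt]
        constructor <;> linarith
      · rw [hφ0 x c h2, hφ0 y c h2, sub_zero, abs_zero]
        exact hε

end

end Pool.Agent.R598.TY
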